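import Pool.Agent.H42.KlarnerComp

/-!
# Klarner's constant is the limit of a computable strictly decreasing sequence of rationals

The definitions `grid`, `IsOmino`, `shift`, `transSetoid`, `t`, `ComputableRatSeq`, `upNum`,
`upBound` are in `Pool.Agent.H42.KlarnerDefs`.
-/

namespace Pool.Agent.Results.MP_fc5d3b_co.ComputableUpper

open Pool.Agent.H42.Klarner Filter Topology

/-- There is a real number `lam` (Klarner's constant) with `t(n)^(1/n) → lam`, and the explicit
sequence `upBound` of rational numbers is computable, strictly decreasing, and converges to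
`lam`. -/
theorem result : ∃ lam : ℝ,
    Tendsto (fun n : ℕ => (t n : ℝ) ^ (1 / (n : ℝ))) atTop (𝓝 lam) ∧
    ComputableRatSeq upBound ∧ StrictAnti upBound ∧
      Tendsto (fun n : ℕ => (upBound n : ℝ)) atTop (𝓝 lam) := by
  obtain ⟨ℓ, hℓ⟩ := exists_log_lim
  rw [upBound_eq]
  exact ⟨Real.exp ℓ, tendsto_root hℓ, beta_computable, beta_strictAnti, beta_tendsto hℓ⟩

end Pool.Agent.Results.MP_fc5d3b_co.ComputableUpper
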